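import Pool.Agent.Lib_helper70.Chrom.StarPhase0
import Pool.Agent.Lib_helper28.Chrom.Stmt

/-!
# The STAR phase (note 1214, section 4)
-/

open Finset

namespace Pool.Agent.Chrom

theorem stmtStarPhase : StmtStarPhase := by
  intro V _ _ A h hs h4 hcr hcp
  exact starPhase_raw h hs h4 (fun T hT hm => hcr T hT hm) hcp

end Pool.Agent.Chrom
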