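import Pool.Agent.Lib_helper46.Chrom.Coup

/-!
# The STAR phase (note 1214, section 4), raw form
-/

open Finset

namespace Pool.Agent.Chrom

variable {V : Type*} [Fintype V] [DecidableEq V]

set_option linter.unusedSectionVars false

variable {A : Finset V → Prop} {S T f g X C D E P : Finset V} {a b p q u v w x x' y z : V}

/-- the defect of a coupling is at most the sum of the defects of its traces -/
lemma coup_cc_le (hadj : (gr A).Adj x x') (hE : E ∈ comps (gr A) {x, x'})
    (hf : IsCoup A x x' E f) (hx : x ∈ f) :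
    cc (gr A) f ≤ cc (gr A) (insert x (f ∩ E)) + cc (gr A) (f \ E) := by
  classical
  obtain ⟨hf, ⟨e, he⟩, r, hr, hrE, hrx, hrx'⟩ := hf
  rw [mem_inter] at he
  have hx'f : x' ∉ f := fun hx' => hf.not_adj hx hx' hadj
  have hxE : x ∉ E := fun hx => Finset.disjoint_left.1 (comps_disjoint_S hE) hx (by simp)
  have hx'E : x' ∉ E := fun hx => Finset.disjoint_left.1 (comps_disjoint_S hE) hx (by simp)
  set avE := (comps (gr A) f).filter (fun B => B ⊆ E) with havE
  set avR := (comps (gr A) f).filter (fun B => Disjoint B E ∧ x' ∉ B) with havR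
  have hcov : comps (gr A) f ⊆ insert (comp (gr A) f x') (avE ∪ avR) := by
    intro B hB
    rw [mem_insert, mem_union, havE, havR, mem_filter, mem_filter]
    by_cases hx'B : x' ∈ B
    · left
      exact (comp_eq_of_mem_comps hB hx'B).symm
    · right
      by_cases hBE : Disjoint B E
      · right; exact ⟨hB, hBE, hx'B⟩
      · left
        refine ⟨hB, ?_⟩
        rw [Finset.not_disjoint_iff] at hBE
        obtain ⟨w, hw, hwE⟩ := hBE
        have hBd : Disjoint B ({x, x'} : Finset V) := by
          rw [Finset.disjoint_right]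
          intro t ht
          rcases mem_insert.1 ht with rfl | ht
          · exact fun htB => Finset.disjoint_left.1 (comps_disjoint_S hB) htB hx
          · rw [mem_singleton.1 ht]; exact hx'B
        have := conn_subset_comp (comps_conn hB) hBd hw
        rwa [comp_eq_of_mem_comps hE hwE] at this
  have hk : kk (gr A) f ≤ 1 + avE.card + avR.card := by
    have h1 := card_le_card hcov
    have h2 := card_insert_le (comp (gr A) f x') (avE ∪ avR)
    have h3 := card_union_le avE avR
    unfold kk
    omega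
  -- the first trace
  have hsub1 : insert (comp (gr A) (insert x (f ∩ E)) x') avE ⊆
      comps (gr A) (insert x (f ∩ E)) := by
    intro B hB
    rcases mem_insert.1 hB with rfl | hB
    · refine comp_mem_comps ?_
      simp [hadj.ne', hx'E]
    · rw [havE, mem_filter] at hB
      refine comps_of_comps hB.1 ?_ ?_
      · exact (comps_disjoint_S hB.1).mono_right (insert_subset hx inter_subset_left)
      · intro s hs t hst htB
        have htf : t ∈ f := by
          by_contra htf
          exact htB (comps_closed hB.1 hs hst htf)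
        by_cases htx : t = x
        · rw [htx]; exact mem_insert_self _ _
        · refine mem_insert_of_mem (mem_inter.2 ⟨htf, ?_⟩)
          refine comps_closed hE (hB.2 hs) hst ?_
          simp only [mem_insert, mem_singleton, not_or]
          exact ⟨htx, fun he => hx'f (he ▸ htf)⟩
  have hnot1 : comp (gr A) (insert x (f ∩ E)) x' ∉ avE := by
    intro hB
    rw [havE, mem_filter] at hB
    exact hx'E (hB.2 (self_mem_comp x'))
  have hk1 : avE.card + 1 ≤ kk (gr A) (insert x (f ∩ E)) := by
    rw [← card_insert_of_notMem hnot1]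
    exact card_le_card hsub1
  -- the second trace
  have hsub2 : insert (comp (gr A) (f \ E) x') avR ⊆ comps (gr A) (f \ E) := by
    intro B hB
    rcases mem_insert.1 hB with rfl | hB
    · refine comp_mem_comps ?_
      simp [hx'f]
    · rw [havR, mem_filter] at hB
      obtain ⟨hB1, hB2, hB3⟩ := hB
      refine comps_of_comps hB1 ((comps_disjoint_S hB1).mono_right sdiff_subset) ?_
      intro s hs t hst htB
      have htf : t ∈ f := by
        by_contra htf
        exact htB (comps_closed hB1 hs hst htf)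
      refine mem_sdiff.2 ⟨htf, fun htE => ?_⟩
      have hsE : s ∉ E := fun hsE => Finset.disjoint_left.1 hB2 hs hsE
      refine hsE (comps_closed hE htE hst.symm ?_)
      simp only [mem_insert, mem_singleton, not_or]
      refine ⟨fun he => ?_, fun he => hB3 (he ▸ hs)⟩
      exact Finset.disjoint_left.1 (comps_disjoint_S hB1) hs (he ▸ hx)
  have hnot2 : comp (gr A) (f \ E) x' ∉ avR := by
    intro hB
    rw [havR, mem_filter] at hB
    exact hB.2.2 (self_mem_comp x')
  have hk2 : avR.card + 1 ≤ kk (gr A) (f \ E) := by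
    rw [← card_insert_of_notMem hnot2]
    exact card_le_card hsub2
  have hcard : (f ∩ E).card + (f \ E).card = f.card := by
    rw [add_comm]; exact card_sdiff_add_card_inter f E
  have hcard1 : (insert x (f ∩ E)).card = (f ∩ E).card + 1 := by
    refine card_insert_of_notMem ?_
    simp [hxE]
  unfold cc
  omega

/-- STAR, unfolded -/
def StarU (A : Finset V → Prop) : Prop :=
  ∀ f, MinNF A f → 3 ≤ f.card → cc (gr A) f = 0 → ∀ X, X ⊂ f → 2 ≤ X.card → cc (gr A) X < 0

/-- in STAR the parts of a tight member are single -/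
lemma star_part (h : NC A) (hs : StarU A) (hf : Mem A f) (hc : Cross A D f)
    (hC : C ∈ comps (gr A) D) : (f ∩ C).card ≤ 1 := by
  by_contra hlt
  have h2 : 2 ≤ (f ∩ C).card := by omega
  have hm : (f ∩ C).Nonempty := card_pos.1 (by omega)
  have h3 := hs f hf.1 hf.2 (hc.zeroT h) _ (hc.part_ssub hC hm) h2
  have h4 := hc.part_zero h hC hm
  omega

/-- there is no clique cut -/
lemma star_noclique (h : NC A) (hs : StarU A) (hcp : AllCoupled A) (hadj : (gr A).Adj x x')
    (hE : E ∈ comps (gr A) {x, x'}) (hv : ∃ v, v ∉ E ∧ v ≠ x ∧ v ≠ x') : False := by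
  have key : ∀ x x' f, (gr A).Adj x x' → E ∈ comps (gr A) {x, x'} → IsCoup A x x' E f → x ∈ f →
      False := by
    intro x x' f hadj hE hf hx
    obtain ⟨_, hT1, hT2⟩ := coup_tight h hadj hE hf hx
    have h1 := coup_cc_le hadj hE hf hx
    rw [hT1.zero, hT2.zero] at h1
    have h2 := h.nonface f hf.1.1 hf.1.2
    have h3 : f \ E ⊂ f := by
      obtain ⟨e, he⟩ := hf.2.1
      rw [mem_inter] at he
      rw [Finset.ssubset_iff_subset_ne]
      refine ⟨sdiff_subset, fun heq => ?_⟩
      have := he.1
      rw [← heq] at this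
      exact (mem_sdiff.1 this).2 he.2
    have h4 := hs f hf.1.1 hf.1.2 (by omega) _ h3 hT2.two
    rw [hT2.zero] at h4
    omega
  obtain ⟨f, hf, h1, h2⟩ := hcp x x' hadj E hE hv
  have hf' : IsCoup A x x' E f := ⟨hf, h1, h2⟩
  rcases coup_mem h hadj hE hf' with hx | hx
  · exact key x x' f hadj hE hf' hx
  · exact key x' x f hadj.symm (by rw [Finset.pair_comm]; exact hE) hf'.swap hx

/-- 3-connectedness in the stuck STAR phase -/
lemma star_three (h : NC A) (hs : StarU A) (h4 : 4 ≤ Fintype.card V)
    (hcr : ∀ T, Tight A T → (∀ X, X ⊂ T → 2 ≤ X.card → cc (gr A) X < 0) → Crossed A T)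
    (hcp : AllCoupled A) (S : Finset V) (hS : S.card ≤ 2) : kk (gr A) S = 1 := by
  have hout : ∃ v, v ∉ S := by
    by_contra hno
    push Not at hno
    have h2 := card_le_card (fun v _ => hno v : (univ : Finset V) ⊆ S)
    rw [card_univ] at h2
    omega
  have hpos : 0 < kk (gr A) S := kk_pos hout
  by_contra hne
  have h2k : 2 ≤ kk (gr A) S := by omega
  have hc0 : S.card ≠ 0 := by
    intro h0
    rw [card_eq_zero] at h0
    subst h0
    obtain ⟨v, -⟩ := hout
    have : Nonempty V := ⟨v⟩
    exact hne (kk_empty_eq_one ⟨h.conn⟩)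
  have hc1 : S.card ≠ 1 := by
    intro h1
    obtain ⟨x, rfl⟩ := card_eq_one.1 h1
    have := h.face {x} (h.sing x) (singleton_nonempty x)
    unfold cc at this
    rw [card_singleton] at this
    omega
  obtain ⟨p, q, hpq, rfl⟩ := card_eq_two.1 (show S.card = 2 by omega)
  by_cases hadj : (gr A).Adj p q
  · obtain ⟨E, hE⟩ := card_pos.1 hpos
    obtain ⟨E', hE', hne'⟩ := Finset.exists_mem_ne (s := comps (gr A) {p, q}) h2k E
    obtain ⟨v, hv⟩ := comps_nonempty hE'
    have h5 : v ∉ ({p, q} : Finset V) := Finset.disjoint_left.1 (comps_disjoint_S hE') hv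
    rw [mem_insert, mem_singleton, not_or] at h5
    exact star_noclique h hs hcp hadj hE ⟨v, fun hvE => hne' (comps_eq_of_mem hE' hE hv hvE), h5⟩
  · have hface : A {p, q} := by
      by_contra hno
      exact hadj ⟨hpq, hno⟩
    have hcc := h.face _ hface ⟨p, by simp⟩
    have hkk : kk (gr A) {p, q} = 2 := by
      unfold cc at hcc
      rw [card_pair hpq] at hcc
      omega
    have htight : Tight A {p, q} := by
      refine ⟨hface, by rw [card_pair hpq], ?_⟩
      unfold cc
      rw [card_pair hpq, hkk]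
      norm_num
    obtain ⟨g, hg, hc⟩ := (hcr _ htight (by
      intro X hX hX2
      have := card_lt_card hX
      rw [card_pair hpq] at this
      omega)).cross h htight
    have h5 := card_eq_sum_inter (G := gr A) hc.disj
    have h6 : ∑ C ∈ comps (gr A) {p, q}, (g ∩ C).card ≤ ∑ C ∈ comps (gr A) {p, q}, 1 :=
      sum_le_sum fun C hC => star_part h hs hg hc hC
    rw [sum_const, smul_eq_mul, mul_one] at h6
    have h7 : (comps (gr A) {p, q}).card = 2 := hkk
    have h8 := hg.2
    omega

/-- the structure around a crossed minimal tight face in the stuck STAR phase -/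
lemma star_cover (h : NC A) (hs : StarU A)
    (h3c : ∀ S : Finset V, S.card ≤ 2 → kk (gr A) S = 1) (hD : Tight A D)
    (hmin : ∀ X, X ⊂ D → 2 ≤ X.card → cc (gr A) X < 0) (hf : Mem A f) (hc : Cross A D f) :
    ∀ v, v ∉ D → v ∈ f := by
  classical
  intro v hvD
  by_contra hvf
  -- parts
  have hfp : ∀ C ∈ comps (gr A) D, (f ∩ C).card ≤ 1 := fun C hC => star_part h hs hf hc hC
  have hDp : ∀ C ∈ comps (gr A) f, (D ∩ C).card ≤ 1 := by
    intro C hC
    by_contra hlt
    have h2 : 2 ≤ (D ∩ C).card := by omega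
    have hm : (D ∩ C).Nonempty := card_pos.1 (by omega)
    have h4 := (hc.symm h).part_zero h hC hm
    have h5 := hmin _ ((hc.symm h).part_ssub hC hm) h2
    omega
  -- all components meet the other set
  have hcardf : f.card ≤ (meetComps (gr A) D f).card := by
    rw [card_eq_sum_meet (G := gr A) hc.disj]
    calc ∑ C ∈ meetComps (gr A) D f, (f ∩ C).card
        ≤ ∑ C ∈ meetComps (gr A) D f, 1 := sum_le_sum fun C hC => hfp C (mem_meetComps.1 hC).1
      _ = _ := by simp
  have hcardD : D.card ≤ (meetComps (gr A) f D).card := by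
    rw [card_eq_sum_meet (G := gr A) hc.disj.symm]
    calc ∑ C ∈ meetComps (gr A) f D, (D ∩ C).card
        ≤ ∑ C ∈ meetComps (gr A) f D, 1 := sum_le_sum fun C hC => hDp C (mem_meetComps.1 hC).1
      _ = _ := by simp
  have heq := hc.card_eq h
  have hkD : kk (gr A) D = D.card := by
    have := hc.zeroS h
    unfold cc at this
    omega
  have hkf : kk (gr A) f = f.card := by
    have := hc.zeroT h
    unfold cc at this
    omega
  have hsub1 : meetComps (gr A) D f ⊆ comps (gr A) D := fun C hC => (mem_meetComps.1 hC).1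
  have hsub2 : meetComps (gr A) f D ⊆ comps (gr A) f := fun C hC => (mem_meetComps.1 hC).1
  have hall1 : meetComps (gr A) D f = comps (gr A) D := by
    refine Finset.eq_of_subset_of_card_le hsub1 ?_
    have : (comps (gr A) D).card = D.card := hkD
    omega
  have hall2 : meetComps (gr A) f D = comps (gr A) f := by
    refine Finset.eq_of_subset_of_card_le hsub2 ?_
    have : (comps (gr A) f).card = f.card := hkf
    omega
  have hcc : D.card = f.card := by
    have h1 : (comps (gr A) D).card = D.card := hkD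
    have h2 : (comps (gr A) f).card = f.card := hkf
    rw [hall1, hall2] at heq
    omega
  -- the component of `v`
  set Q := comp (gr A) (D ∪ f) v with hQ
  have hvDf : v ∉ D ∪ f := by rw [mem_union]; tauto
  have hQc : Q ∈ comps (gr A) (D ∪ f) := comp_mem_comps hvDf
  have hQd := comps_disjoint_S hQc
  set C1 := comp (gr A) D v with hC1
  set C2 := comp (gr A) f v with hC2
  have hC1c : C1 ∈ comps (gr A) D := comp_mem_comps hvD
  have hC2c : C2 ∈ comps (gr A) f := comp_mem_comps hvf
  have hQ1 : Q ⊆ C1 := comp_anti subset_union_left v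
  have hQ2 : Q ⊆ C2 := comp_anti subset_union_right v
  obtain ⟨y, hy⟩ : ∃ y, f ∩ C1 = {y} := by
    rw [← card_eq_one]
    have h1 := hfp C1 hC1c
    have h2 : C1 ∈ meetComps (gr A) D f := by rw [hall1]; exact hC1c
    have h3 := (part_ssubset hc.two h2).2
    have := card_pos.2 h3
    omega
  obtain ⟨d, hd⟩ : ∃ d, D ∩ C2 = {d} := by
    rw [← card_eq_one]
    have h1 := hDp C2 hC2c
    have h2 : C2 ∈ meetComps (gr A) f D := by rw [hall2]; exact hC2c
    have h3 := (part_ssubset (hc.symm h).two h2).2
    have := card_pos.2 h3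
    omega
  have hyf : y ∈ f := (mem_inter.1 (show y ∈ f ∩ C1 by rw [hy]; simp)).1
  have hdD : d ∈ D := (mem_inter.1 (show d ∈ D ∩ C2 by rw [hd]; simp)).1
  have hcl : Closed (gr A) {d, y} Q := by
    intro s hsQ t hst ht
    by_contra htQ
    have htDf : t ∈ D ∪ f := by
      by_contra hno
      exact htQ (comps_closed hQc hsQ hst hno)
    rw [mem_insert, mem_singleton, not_or] at ht
    rcases mem_union.1 htDf with htD | htf
    · have h1 : t ∉ f := Finset.disjoint_left.1 hc.disj htD
      have h2 := comps_closed hC2c (hQ2 hsQ) hst h1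
      have h3 : t ∈ D ∩ C2 := mem_inter.2 ⟨htD, h2⟩
      rw [hd, mem_singleton] at h3
      exact ht.1 h3
    · have h1 : t ∉ D := Finset.disjoint_right.1 hc.disj htf
      have h2 := comps_closed hC1c (hQ1 hsQ) hst h1
      have h3 : t ∈ f ∩ C1 := mem_inter.2 ⟨htf, h2⟩
      rw [hy, mem_singleton] at h3
      exact ht.2 h3
  have hQd' : Disjoint Q ({d, y} : Finset V) := by
    refine hQd.mono_right ?_
    rw [pair_subset_iff]
    exact ⟨mem_union_left _ hdD, mem_union_right _ hyf⟩
  have hQc' : Q ∈ comps (gr A) {d, y} := mem_comps_iff.2 ⟨comps_conn hQc, hQd', hcl⟩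
  -- another point of `D`
  have h3 := hf.2
  obtain ⟨d', hd', hne⟩ := Finset.exists_mem_ne (s := D) (by omega) d
  have hd'y : d' ≠ y := fun he => Finset.disjoint_left.1 hc.disj hd' (he ▸ hyf)
  have hd'S : d' ∉ ({d, y} : Finset V) := by
    rw [mem_insert, mem_singleton, not_or]; exact ⟨hne, hd'y⟩
  have hd'Q : d' ∉ Q := fun hq => Finset.disjoint_left.1 hQd hq (mem_union_left _ hd')
  have hk := h3c {d, y} card_le_two
  have h1 := card_le_one.1 (show (comps (gr A) {d, y}).card ≤ 1 from hk.le) _ hQc' _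
    (comp_mem_comps hd'S)
  exact hd'Q (h1 ▸ self_mem_comp d')

/-- **STAR phase** -/
theorem starPhase_raw (h : NC A) (hs : StarU A) (h4 : 4 ≤ Fintype.card V)
    (hcr : ∀ T, Tight A T → (∀ X, X ⊂ T → 2 ≤ X.card → cc (gr A) X < 0) → Crossed A T)
    (hcp : AllCoupled A) :
    (∀ S : Finset V, S.card ≤ 2 → kk (gr A) S = 1) ∧
      ∃ u v, (gr A).Adj u v ∧ ∀ T, Tight A T → u ∈ T ∨ v ∈ T := by
  classical
  have h3c := star_three h hs h4 hcr hcp
  refine ⟨h3c, ?_⟩
  -- every tight face contains a minimal one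
  have hmin : ∀ T, Tight A T → ∃ D, D ⊆ T ∧ Tight A D ∧
      ∀ X, X ⊂ D → 2 ≤ X.card → cc (gr A) X < 0 := by
    intro T
    induction T using Finset.strongInduction with
    | H T ih =>
      intro hT
      by_cases h1 : ∀ X, X ⊂ T → 2 ≤ X.card → cc (gr A) X < 0
      · exact ⟨T, Subset.refl _, hT, h1⟩
      · push Not at h1
        obtain ⟨X, hX, hX2, hX0⟩ := h1
        have hXA : A X := h.down _ _ hX.subset hT.face
        have hXle := h.face X hXA (card_pos.1 (by omega))
        obtain ⟨D, hD, hD'⟩ := ih X hX ⟨hXA, hX2, by omega⟩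
        exact ⟨D, hD.trans hX.subset, hD'⟩
  -- an edge at a given vertex
  have hnb : ∀ u : V, ∃ v, (gr A).Adj u v := by
    intro u
    obtain ⟨w, hw⟩ : ∃ w, w ≠ u := by
      haveI : Nontrivial V := Fintype.one_lt_card_iff_nontrivial.1 (by omega)
      exact exists_ne u
    obtain ⟨p⟩ := h.conn u w
    cases p with
    | nil => exact absurd rfl hw
    | cons hadj _ => exact ⟨_, hadj⟩
  by_cases hex : ∃ T, Tight A T
  swap
  · have : Nonempty V := Fintype.card_pos_iff.1 (by omega)
    obtain ⟨u⟩ := this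
    obtain ⟨v, hv⟩ := hnb u
    exact ⟨u, v, hv, fun T hT => absurd ⟨T, hT⟩ hex⟩
  obtain ⟨T0, hT0⟩ := hex
  obtain ⟨D, -, hD, hDm⟩ := hmin T0 hT0
  obtain ⟨f, hf, hc⟩ := (hcr D hD hDm).cross h hD
  have hcov := star_cover h hs h3c hD hDm hf hc
  obtain ⟨u, hu⟩ : D.Nonempty := card_pos.1 (by have := hD.two; omega)
  obtain ⟨v, hv⟩ := hnb u
  refine ⟨u, v, hv, fun T hT => Or.inl ?_⟩
  obtain ⟨D', hD'T, hD', hD'm⟩ := hmin T hT
  obtain ⟨f', hf', hc'⟩ := (hcr D' hD' hD'm).cross h hD'
  have hcov' := star_cover h hs h3c hD' hD'm hf' hc'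
  suffices hDD : D = D' by
    rw [hDD] at hu
    exact hD'T hu
  by_contra hne
  -- the symmetric difference
  have hsd : ∃ x, (x ∈ D ∧ x ∉ D') ∨ (x ∈ D' ∧ x ∉ D) := by
    by_contra hno
    push Not at hno
    refine hne ?_
    ext x
    exact ⟨fun hx => (hno x).1 hx, fun hx => (hno x).2 hx⟩
  obtain ⟨x0, hx0⟩ := hsd
  have hstep : ∀ s t, ((s ∈ D ∧ s ∉ D') ∨ (s ∈ D' ∧ s ∉ D)) → (gr A).Adj s t →
      ((t ∈ D ∧ t ∉ D') ∨ (t ∈ D' ∧ t ∉ D)) := by
    intro s t hs hst
    by_contra hno
    by_cases ht : t ∈ D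
    · have ht' : t ∈ D' := by
        by_contra h1
        exact hno (Or.inl ⟨ht, h1⟩)
      rcases hs with hs | hs
      · exact h.not_adj hD.face hs.1 ht hst
      · exact h.not_adj hD'.face hs.1 ht' hst
    · have ht' : t ∉ D' := fun h1 => hno (Or.inr ⟨h1, ht⟩)
      rcases hs with hs | hs
      · exact hf'.not_adj (hcov' s hs.2) (hcov' t ht') hst
      · exact hf.not_adj (hcov s hs.2) (hcov t ht) hst
  have hall : ∀ t, (t ∈ D ∧ t ∉ D') ∨ (t ∈ D' ∧ t ∉ D) := by
    intro t
    obtain ⟨p⟩ := h.conn x0 t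
    have aux : ∀ (a b : V), (gr A).Walk a b → ((a ∈ D ∧ a ∉ D') ∨ (a ∈ D' ∧ a ∉ D)) →
        ((b ∈ D ∧ b ∉ D') ∨ (b ∈ D' ∧ b ∉ D)) := by
      intro a b q
      induction q with
      | nil => exact id
      | cons hadj q ih => exact fun ha => ih (hstep _ _ ha hadj)
    exact aux _ _ p hx0
  have hfD' : f = D' := by
    ext t
    constructor
    · intro ht
      have h1 : t ∉ D := Finset.disjoint_right.1 hc.disj ht
      rcases hall t with h2 | h2
      · exact absurd h2.1 h1
      · exact h2.1
    · intro ht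
      rcases hall t with h2 | h2
      · exact absurd ht h2.2
      · exact hcov t h2.2
  exact hf.1.1 (hfD' ▸ hD'.face)

end Pool.Agent.Chrom
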